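import Pool.Agent.Helper93.KS.St
import Pool.Agent.Helper6.TW.M_D2

/-!
# Project KS, module DK: keeping step of the deterministic recursion
-/

set_option autoImplicit false

noncomputable section

namespace Pool.Agent.Helper74.KS

open Finset Filter Topology Pool.Agent.Helper93.KS
open Pool.Agent.Helper9.TW (gm)

/-- the factors -/
private theorem kgm (κ j : ℕ) (hκ : κ ≤ 2) (hj : 8 ≤ j) :
    0 ≤ (κ : ℝ) * gm j ∧ (κ : ℝ) * gm j ≤ 1 / 4 := by
  have h1 := Pool.Agent.Helper6.TW.gm_le j (by omega)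
  have h2 := Pool.Agent.Helper6.TW.le_gm j (by omega)
  have hjR : (8 : ℝ) ≤ j := by exact_mod_cast hj
  have h0 : 0 ≤ gm j := le_trans (by positivity) h2
  have h3 : (1 : ℝ) / j ≤ 1 / 8 := one_div_le_one_div_of_le (by norm_num) hjR
  have hκR : (κ : ℝ) ≤ 2 := by exact_mod_cast hκ
  refine ⟨by positivity, ?_⟩
  calc (κ : ℝ) * gm j ≤ 2 * (1 / 8) := by
        apply mul_le_mul hκR (h1.trans h3) h0 (by norm_num)
    _ = 1 / 4 := by norm_num

/-- the chain of applications of the rule `uk` -/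
private theorem chain (κ j0 Nm N : ℕ) (U L : ℕ → ℕ → ℝ → Prop) (hκ : κ ≤ 2) (hB : Bx κ j0 Nm U L)
    (hN : N ≤ Nm) (j₁ : ℕ) (h1 : j0 ≤ j₁) (h8 : 8 ≤ j₁) (u : ℝ) (hu : 0 ≤ u) (hst : U N j₁ u) (j : ℕ)
    (hj : j₁ ≤ j) : 1 ≤ ∏ j' ∈ Ico j₁ j, 1 / (1 - (κ : ℝ) * gm j') ∧
      U N j ((1 + u) * (∏ j' ∈ Ico j₁ j, 1 / (1 - (κ : ℝ) * gm j')) - 1) := by
  induction j, hj using Nat.le_induction with
  | base =>
    rw [Finset.Ico_self, Finset.prod_empty]
    refine ⟨le_refl _, ?_⟩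
    have : (1 + u) * 1 - 1 = u := by ring
    rw [this]
    exact hst
  | succ j hj ih =>
    obtain ⟨p1, p2⟩ := ih
    obtain ⟨k1, k2⟩ := kgm κ j hκ (h8.trans hj)
    rw [Finset.prod_Ico_succ_top hj]
    set P := ∏ j' ∈ Ico j₁ j, 1 / (1 - (κ : ℝ) * gm j') with hP
    have hpos : 0 < 1 - (κ : ℝ) * gm j := by linarith
    have hge : 1 ≤ 1 / (1 - (κ : ℝ) * gm j) := by
      rw [le_div_iff₀ hpos]
      linarith
    refine ⟨?_, ?_⟩
    · nlinarith
    · have hnn : 0 ≤ (1 + u) * P - 1 := by nlinarith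
      have e := hB.uk N j ((1 + u) * P - 1) (h1.trans hj) hN hnn p2
      have e2 : ((1 + u) * P - 1 + κ * gm j) / (1 - κ * gm j) =
          (1 + u) * (P * (1 / (1 - (κ : ℝ) * gm j))) - 1 := by
        field_simp
        ring
      rw [e2] at e
      exact e

/-- **Module DK.** -/
theorem hDK (hR : StRB) : StDK := by
  intro κ S K i c hκ hK hi hc hH η hη
  have hiR : (1 : ℝ) ≤ i := by exact_mod_cast hi
  have hKR : (1 : ℝ) ≤ K := by exact_mod_cast hK
  set r : ℝ := (((i : ℝ) + 1) / i) ^ κ with hr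
  have hr1 : 1 ≤ r := by
    apply one_le_pow₀
    rw [le_div_iff₀ (by linarith)]
    linarith
  obtain ⟨C, jsR, hC, hjsR, hR'⟩ := hR κ K i hκ hK hi
  set η' : ℝ := η / (4 * r) with hη'
  have hη'0 : 0 < η' := by positivity
  have hrη : r * η' = η / 4 := by
    rw [hη']
    field_simp
  have hη'1 : η' ≤ η / 4 := by nlinarith
  obtain ⟨js1, hjs1⟩ := hH η' hη'0
  refine ⟨max (max jsR js1) ⌈2 * ((1 + c + η') * C) / η⌉₊, ?_⟩
  intro j0 hj0 U L hB j N hj hN hsj
  have hj0R : jsR ≤ j0 := le_trans (le_trans (le_max_left _ _) (le_max_left _ _)) hj0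
  have hj01 : js1 ≤ j0 := le_trans (le_trans (le_max_right _ _) (le_max_left _ _)) hj0
  have hj0C : 2 * ((1 + c + η') * C) / η ≤ (j0 : ℝ) :=
    (Nat.le_ceil _).trans (by exact_mod_cast le_trans (le_max_right _ _) hj0)
  have hj08 : 8 ≤ j0 := hjsR.trans hj0R
  have hj0pos : (0 : ℝ) < j0 := by
    have : (8 : ℝ) ≤ j0 := by exact_mod_cast hj08
    linarith
  by_cases hcase : ((i : ℝ) + 1) / K * j ≤ (N : ℝ)
  · refine hB.um N j (c + η') _ (hjs1 j0 hj01 U L hB j N hj hN hcase) ?_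
    nlinarith
  · push Not at hcase
    have hn1 : i * j ≤ K * N := by
      have h1 : (i : ℝ) * j ≤ K * N := by
        rw [div_mul_eq_mul_div, div_le_iff₀ (by linarith)] at hsj
        linarith
      exact_mod_cast h1
    have hn2 : K * N < (i + 1) * j := by
      have h1 : (K : ℝ) * N < (i + 1) * j := by
        rw [div_mul_eq_mul_div, lt_div_iff₀ (by linarith)] at hcase
        linarith
      exact_mod_cast h1
    obtain ⟨j₁, h1, h2, h3, h4⟩ := hR' j0 j N hj0R hj hn1 hn2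
    have hst : U N j₁ (c + η') := by
      rcases h3 with h3 | h3
      · rw [h3]
        exact hB.um N j0 0 _ (hB.u0 N hN) (by positivity)
      · refine hjs1 j0 hj01 U L hB j₁ N h1 hN ?_
        rw [div_mul_eq_mul_div, div_le_iff₀ (by linarith)]
        have : (((i + 1) * j₁ : ℕ) : ℝ) ≤ ((K * N : ℕ) : ℝ) := by exact_mod_cast h3
        push_cast at this
        linarith
    obtain ⟨p1, p2⟩ := chain κ j0 (S * j0) N U L hκ hB hN j₁ h1 (hj08.trans h1) (c + η')
      (by positivity) hst j h2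
    refine hB.um N j _ _ p2 ?_
    have hb : (1 + (c + η')) * (∏ j' ∈ Ico j₁ j, 1 / (1 - (κ : ℝ) * gm j')) ≤
        (1 + (c + η')) * (r + C / j0) := mul_le_mul_of_nonneg_left h4 (by positivity)
    have hC2 : (1 + (c + η')) * (C / j0) ≤ η / 2 := by
      rw [div_le_iff₀ hη] at hj0C
      rw [← mul_div_assoc, div_le_iff₀ hj0pos]
      nlinarith
    have e1 : (1 + (c + η')) * (r + C / j0) = r + r * c + r * η' + (1 + (c + η')) * (C / j0) := by ring
    rw [e1, hrη] at hb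
    linarith

end Pool.Agent.Helper74.KS
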